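import Pool.Agent.P.MP_c47ae4_an.Kernel

set_option autoImplicit false

namespace Pool.Agent.P.MP_c47ae4_an

open Finset MeasureTheory ProbabilityTheory Filter

variable {m : ℕ → ℕ} [∀ k, NeZero (m k)]

instance : IsProbabilityMeasure (mu m) := by
  unfold mu; infer_instance

instance : (mu m).IsAddRightInvariant where
  map_add_right_eq_self z := by
    have h := Measure.infinitePi_map_pi
      (μ := fun k => uniformOn (Set.univ : Set (ZMod (m k)))) (f := fun k c => c + z k)
      (fun k => Measurable.of_discrete)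
    have h2 : (fun k => (uniformOn (Set.univ : Set (ZMod (m k)))).map (fun c => c + z k)) =
        fun k => uniformOn (Set.univ : Set (ZMod (m k))) := by
      funext k
      unfold uniformOn ProbabilityTheory.cond
      rw [Measure.restrict_univ, Measure.map_smul, map_add_right_eq_self]
    rw [h2] at h
    exact h

/-- The finite group of the first `n` coordinates. -/
abbrev Z (m : ℕ → ℕ) (n : ℕ) : Type := (k : Fin n) → ZMod (m k)

/-- Extension by zero. -/
def ext0 {n : ℕ} (z : Z m n) : G m := fun k => if h : k < n then z ⟨k, h⟩ else 0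

omit [∀ k, NeZero (m k)] in
lemma ext0_apply {n : ℕ} (z : Z m n) (k : Fin n) : ext0 z k = z k := by
  simp [ext0]

lemma card_Z (n : ℕ) : Fintype.card (Z m n) = M m n := by
  rw [Fintype.card_pi, M, ← Fin.prod_univ_eq_prod_range (fun k => m k) n]
  simp [ZMod.card]

lemma stronglyMeasurable_of_dependsOn {E : Type} [TopologicalSpace E] {n : ℕ} {φ : G m → E}
    (h : DependsOn φ (range n : Set ℕ)) : StronglyMeasurable[filt m n] φ := by
  classical
  let e : ((k : ↥(range n)) → ZMod (m k)) → G m :=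
    fun w k => if h : k ∈ range n then w ⟨k, h⟩ else 0
  have h1 : φ = (φ ∘ e) ∘ (range n).restrict := by
    funext x
    refine h fun k hk => ?_
    have hk' : k ∈ range n := hk
    simp only [e, hk', dif_pos]
    rfl
  rw [h1]
  exact StronglyMeasurable.comp_measurable StronglyMeasurable.of_discrete (comap_measurable _)

lemma integrable_of_dependsOn {E : Type} [NormedAddCommGroup E] {n : ℕ} {φ : G m → E}
    (h : DependsOn φ (range n : Set ℕ)) : Integrable φ (mu m) := by
  obtain ⟨C, hC⟩ := (Set.finite_range fun z : Z m n => ‖φ (ext0 z)‖).bddAbove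
  refine Integrable.of_bound
    ((stronglyMeasurable_of_dependsOn h).mono ((filt m).le n)).aestronglyMeasurable C
    (Eventually.of_forall fun x => ?_)
  have h1 : φ x = φ (ext0 fun k : Fin n => x k) := by
    refine h fun k hk => ?_
    have hk' : k < n := by simpa using hk
    simp [ext0, hk']
  rw [h1]
  exact hC ⟨_, rfl⟩

omit [∀ k, NeZero (m k)] in
lemma dependsOn_sub {E : Type} {n : ℕ} {φ : G m → E} (h : DependsOn φ (range n : Set ℕ))
    (z : G m) : DependsOn (fun x => φ (x - z)) (range n : Set ℕ) := by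
  intro x y hxy
  refine h fun k hk => ?_
  rw [Pi.sub_apply, Pi.sub_apply, hxy k hk]

lemma integral_eq_avg {n : ℕ} {φ : G m → ℂ} (hm : ∀ k, 2 ≤ m k)
    (h : DependsOn φ (range n : Set ℕ)) (x : G m) :
    ∫ y, φ y ∂(mu m) = (∑ z : Z m n, φ (x - ext0 z)) / M m n := by
  have hM : (M m n : ℂ) ≠ 0 := by exact_mod_cast (M_pos hm n).ne'
  have h1 : ∀ y, ∑ z : Z m n, φ (y - ext0 z) = ∑ z : Z m n, φ (x - ext0 z) := by
    intro y
    refine Fintype.sum_equiv (Equiv.addRight fun k : Fin n => x k - y k) _ _ fun z => ?_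
    refine h fun k hk => ?_
    have hk' : k < n := by simpa using hk
    simp only [Pi.sub_apply, ext0, hk', dif_pos, Equiv.coe_addRight, Pi.add_apply]
    ring
  have h2 : ∫ y, ∑ z : Z m n, φ (y - ext0 z) ∂(mu m) = M m n * ∫ y, φ y ∂(mu m) := by
    rw [integral_finsetSum _ fun z _ => integrable_of_dependsOn (dependsOn_sub h _)]
    simp only [integral_sub_right_eq_self, sum_const, card_univ, card_Z, nsmul_eq_mul]
  simp only [h1, integral_const, probReal_univ, one_smul] at h2
  rw [h2]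
  field_simp

omit [∀ k, NeZero (m k)] in
lemma dependsOn_psi (hm : ∀ k, 2 ≤ m k) {i n : ℕ} (hi : i < M m n) :
    DependsOn (psi m i) (range n : Set ℕ) := by
  intro x y hxy
  rw [psi_eq_prod hm hi, psi_eq_prod hm hi]
  refine prod_congr rfl fun k hk => ?_
  unfold rad
  rw [hxy k hk]

variable {f : ℕ → G m → ℂ}

omit [∀ k, NeZero (m k)] in
lemma dependsOn_mart (hf : Martingale f (filt m) (mu m)) (n : ℕ) :
    DependsOn (f n) (range n : Set ℕ) :=
  StronglyMeasurable.dependsOn_of_piFinset (X := fun k => ZMod (m k)) (s := range n) (hf.1 n)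

lemma coeff_eq (hm : ∀ k, 2 ≤ m k) (hf : Martingale f (filt m) (mu m)) {i n : ℕ}
    (hi : i < M m n) :
    coeff m f i = ∫ x, f n x * (starRingEnd ℂ) (psi m i x) ∂(mu m) := by
  unfold coeff
  refine Tendsto.limUnder_eq (tendsto_const_nhds.congr' ?_)
  filter_upwards [eventually_ge_atTop n] with k hk
  have hψ : DependsOn (fun x => (starRingEnd ℂ) (psi m i x)) (range n : Set ℕ) :=
    fun x y hxy => by simp only [dependsOn_psi hm hi hxy]
  have hprod : DependsOn (fun x => f k x * (starRingEnd ℂ) (psi m i x)) (range k : Set ℕ) :=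
    fun x y hxy => by
      simp only [dependsOn_psi hm (hi.trans_le (M_mono hm hk)) hxy, dependsOn_mart hf k hxy]
  have h1 := condExp_bilin_of_aestronglyMeasurable_right (μ := mu m) (m := filt m n)
    (ContinuousLinearMap.mul ℝ ℂ) (f := f k) (g := fun x => (starRingEnd ℂ) (psi m i x))
    (stronglyMeasurable_of_dependsOn hψ).aestronglyMeasurable
    (integrable_of_dependsOn hprod) (hf.integrable k)
  rw [← integral_condExp ((filt m).le n) (f := fun x => f k x * (starRingEnd ℂ) (psi m i x))]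
  refine integral_congr_ae ?_
  filter_upwards [h1, hf.2 n k hk] with x hx1 hx2
  rw [hx2] at hx1
  exact hx1.symm

lemma conv (hm : ∀ k, 2 ≤ m k) (hf : Martingale f (filt m) (mu m)) {n : ℕ} {I : Finset ℕ}
    (hI : ∀ i ∈ I, i < M m n) (u : ℕ → ℂ) (x : G m) :
    ∑ i ∈ I, u i * (coeff m f i * psi m i x) =
      (∑ z : Z m n, f n (x - ext0 z) * ∑ i ∈ I, u i * psi m i (ext0 z)) / M m n := by
  have h1 : ∀ i ∈ I, coeff m f i * psi m i x =
      (∑ z : Z m n, f n (x - ext0 z) * psi m i (ext0 z)) / M m n := by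
    intro i hi
    have hd : DependsOn (fun y => f n y * psi m i (x - y)) (range n : Set ℕ) := by
      intro y y' hy
      have h2 : psi m i (x - y) = psi m i (x - y') := by
        refine dependsOn_psi hm (hI i hi) fun k hk => ?_
        rw [Pi.sub_apply, Pi.sub_apply, hy k hk]
      simp only [dependsOn_mart hf n hy, h2]
    have h2 := integral_eq_avg hm hd x
    simp only [sub_sub_cancel] at h2
    rw [← h2, coeff_eq hm hf (hI i hi), ← integral_mul_const]
    refine integral_congr_ae (Eventually.of_forall fun y => ?_)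
    simp only [psi_sub hm]
    ring
  rw [sum_congr rfl fun i hi => by rw [h1 i hi]]
  simp only [mul_sum, ← mul_div_assoc]
  rw [← sum_div, sum_comm]
  congr 1
  refine sum_congr rfl fun z _ => sum_congr rfl fun i _ => ?_
  ring

lemma inversion (hm : ∀ k, 2 ≤ m k) (hf : Martingale f (filt m) (mu m)) (n : ℕ) (x : G m) :
    ∑ i ∈ range (M m n), coeff m f i * psi m i x = f n x := by
  classical
  have hM : (M m n : ℂ) ≠ 0 := by exact_mod_cast (M_pos hm n).ne'
  have h1 := conv hm hf (n := n) (I := range (M m n)) (fun i hi => mem_range.1 hi) (fun _ => 1) x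
  simp only [one_mul, dirichlet_eq hm] at h1
  rw [h1, sum_eq_single 0]
  · have h2 : ext0 (0 : Z m n) = 0 := by
      funext k
      simp [ext0]
    rw [h2, sub_zero]
    simp only [Pi.zero_apply, if_true]
    rw [← Nat.cast_prod]
    change f n x * (M m n : ℂ) / M m n = _
    field_simp
  · intro z _ hz
    obtain ⟨k, hk⟩ := Function.ne_iff.1 hz
    rw [prod_eq_zero (mem_range.2 k.2) (if_neg (by rw [ext0_apply]; exact hk)), mul_zero]
  · simp

/-- The real harmonic numbers. -/
noncomputable def H (n : ℕ) : ℝ := ∑ k ∈ Icc 1 n, (1 / k : ℝ)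

/-- The block operator. -/
noncomputable def U (m : ℕ → ℕ) (f : ℕ → G m → ℂ) (j : ℕ) (x : G m) : ℂ :=
  ∑ i ∈ Ico (M m j) (M m (j + 1)),
    (∑ k ∈ Ioc i (M m (j + 1)), (1 / k : ℂ)) * (coeff m f i * psi m i x)

omit [∀ k, NeZero (m k)] in
lemma sum_S_eq (N : ℕ) (x : G m) :
    ∑ k ∈ Icc 1 N, S m f k x / k =
      ∑ i ∈ range N, (∑ k ∈ Ioc i N, (1 / k : ℂ)) * (coeff m f i * psi m i x) := by
  induction N with
  | zero => simp
  | succ N ih =>
    rw [sum_Icc_succ_top (by omega), ih, S, sum_div, sum_range_succ, sum_range_succ, ← add_assoc,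
      ← sum_add_distrib]
    congr 1
    · refine sum_congr rfl fun i hi => ?_
      rw [sum_Ioc_succ_top (mem_range.1 hi).le]
      ring
    · rw [sum_Ioc_succ_top le_rfl]
      simp only [Ioc_self, sum_empty]
      ring

omit [∀ k, NeZero (m k)] in
lemma H_sub {a b : ℕ} (h : a ≤ b) : H b = H a + ∑ k ∈ Ioc a b, (1 / k : ℝ) := by
  unfold H
  rw [show Icc 1 b = Ioc 0 b from rfl, show Icc 1 a = Ioc 0 a from rfl,
    sum_Ioc_consecutive _ (Nat.zero_le a) h]

lemma norm_sum_S_le (hm : ∀ k, 2 ≤ m k) (hf : Martingale f (filt m) (mu m)) (x : G m) {F : ℝ}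
    (n : ℕ) (hF : ∀ j ≤ n, ‖f j x‖ ≤ F) :
    ‖∑ k ∈ Icc 1 (M m n), S m f k x / k‖ ≤ H (M m n) * F + ∑ j ∈ range n, ‖U m f j x‖ := by
  induction n with
  | zero =>
    have h1 := inversion hm hf 0 x
    have h2 := hF 0 le_rfl
    rw [M_zero] at h1 ⊢
    simpa [S, H, h1] using (by simpa [← h1] using h2)
  | succ n ih =>
    have ih' := ih fun j hj => hF j (by omega)
    have hle := M_mono hm (Nat.le_succ n)
    have key : ∑ k ∈ Icc 1 (M m (n + 1)), S m f k x / k =
        ∑ k ∈ Icc 1 (M m n), S m f k x / k +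
          ((∑ k ∈ Ioc (M m n) (M m (n + 1)), (1 / k : ℝ) : ℝ) : ℂ) * f n x + U m f n x := by
      rw [sum_S_eq, sum_S_eq, ← sum_range_add_sum_Ico _ hle, ← inversion hm hf n x, mul_sum,
        ← sum_add_distrib]
      congr 1
      refine sum_congr rfl fun i hi => ?_
      rw [← sum_Ioc_consecutive _ (mem_range.1 hi).le hle]
      push_cast
      ring
    have h0 : 0 ≤ ∑ k ∈ Ioc (M m n) (M m (n + 1)), (1 / k : ℝ) :=
      sum_nonneg fun k _ => by positivity
    rw [key, H_sub hle, sum_range_succ]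
    refine (norm_add_le _ _).trans (add_le_add ((norm_add_le _ _).trans ?_) le_rfl |>.trans
      (le_of_eq (add_assoc _ _ _)))
    rw [norm_mul, Complex.norm_real, Real.norm_of_nonneg h0]
    have := mul_le_mul_of_nonneg_left (hF n (by omega)) h0
    linarith

omit [∀ k, NeZero (m k)] in
lemma le_H (hm : ∀ k, 2 ≤ m k) (n : ℕ) : 1 + (n : ℝ) / 2 ≤ H (M m n) := by
  induction n with
  | zero => simp [M_zero, H]
  | succ n ih =>
    have hle := M_mono hm (Nat.le_succ n)
    have hpos : (0 : ℝ) < M m (n + 1) := by exact_mod_cast M_pos hm (n + 1)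
    have h2 : 2 * M m n ≤ M m (n + 1) := by simpa using two_pow_mul_le hm n 1
    have h3 : (1 : ℝ) / 2 ≤ ∑ k ∈ Ioc (M m n) (M m (n + 1)), (1 / k : ℝ) := by
      calc (1 : ℝ) / 2 ≤ ∑ _k ∈ Ioc (M m n) (M m (n + 1)), (1 / M m (n + 1) : ℝ) := by
            rw [sum_const, Nat.card_Ioc, nsmul_eq_mul, Nat.cast_sub hle, mul_one_div,
              le_div_iff₀ hpos]
            have h4 : (2 : ℝ) * M m n ≤ M m (n + 1) := by exact_mod_cast h2
            linarith
        _ ≤ _ := by
            refine sum_le_sum fun k hk => ?_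
            have h4 := mem_Ioc.1 hk
            have h5 : (0 : ℝ) < k := by
              have : 0 < k := by omega
              exact_mod_cast this
            exact one_div_le_one_div_of_le h5 (by exact_mod_cast h4.2)
    rw [H_sub hle]
    push_cast
    linarith

lemma norm_R_le (hm : ∀ k, 2 ≤ m k) (hf : Martingale f (filt m) (mu m)) (x : G m) {F Y : ℝ}
    (n : ℕ) (hF : ∀ j ≤ n, ‖f j x‖ ≤ F) (hY0 : 0 ≤ Y) (hY : ∀ j < n, ‖U m f j x‖ ≤ Y) :
    ‖R m f (M m n) x‖ ≤ F + 2 * Y := by
  have h1 := norm_sum_S_le hm hf x n hF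
  have h2 := le_H hm n
  have h3 : (0 : ℝ) ≤ n := Nat.cast_nonneg n
  have h4 : ∑ j ∈ range n, ‖U m f j x‖ ≤ n * Y := by
    calc _ ≤ ∑ _j ∈ range n, Y := sum_le_sum fun j hj => hY j (mem_range.1 hj)
      _ = _ := by simp
  have h5 : ∑ k ∈ Icc 1 (M m n), (1 / k : ℂ) = (H (M m n) : ℂ) := by
    unfold H; push_cast; rfl
  unfold R
  rw [h5, norm_div, Complex.norm_real, Real.norm_of_nonneg (by linarith),
    div_le_iff₀ (by linarith)]
  nlinarith

lemma norm_U_le {B : ℕ} (hm : ∀ k, 2 ≤ m k) (hB : ∀ k, m k ≤ B)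
    (hf : Martingale f (filt m) (mu m)) (j : ℕ) (x : G m) :
    ‖U m f j x‖ ≤ ∑ z : Z m (j + 1),
      (B * ∏ a ∈ range (j + 1), eps m (4 * B) (3 / 4) j (ext0 z) a) * ‖f (j + 1) (x - ext0 z)‖ := by
  have hM : (0 : ℝ) < M m (j + 1) := by exact_mod_cast M_pos hm (j + 1)
  unfold U
  rw [conv hm hf (n := j + 1) (fun i hi => (mem_Ico.1 hi).2), norm_div, Complex.norm_natCast,
    div_le_iff₀ hM, sum_mul]
  refine (norm_sum_le _ _).trans (sum_le_sum fun z _ => ?_)
  rw [norm_mul]
  have h1 := mul_le_mul_of_nonneg_left (norm_K_le hm hB j (ext0 z))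
    (norm_nonneg (f (j + 1) (x - ext0 z)))
  refine le_trans h1 (le_of_eq ?_)
  ring

end Pool.Agent.P.MP_c47ae4_an
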