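import Mathlib

set_option autoImplicit false

namespace Pool.Agent.P.MP_c47ae4_an

open MeasureTheory ProbabilityTheory Filter

/-- The Vilenkin group: the product of the cyclic groups of orders `m k`. -/
abbrev G (m : ℕ → ℕ) : Type := ∀ k, ZMod (m k)

/-- The product of the uniform probability measures. -/
noncomputable def mu (m : ℕ → ℕ) : Measure (G m) :=
  Measure.infinitePi fun k => uniformOn (Set.univ : Set (ZMod (m k)))

/-- The generalised number system `M 0 = 1`, `M (k + 1) = m k * M k`. -/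
def M (m : ℕ → ℕ) (n : ℕ) : ℕ := ∏ k ∈ Finset.range n, m k

/-- The generalised Rademacher functions. -/
noncomputable def rad (m : ℕ → ℕ) (k : ℕ) (x : G m) : ℂ :=
  Complex.exp (2 * Real.pi * Complex.I * ((x k).val : ℂ) / (m k : ℂ))

/-- The Vilenkin system; `n / M k % m k` is the `k`-th digit of `n`. -/
noncomputable def psi (m : ℕ → ℕ) (n : ℕ) (x : G m) : ℂ :=
  ∏ᶠ k, rad m k x ^ (n / M m k % m k)

/-- The filtration whose `n`-th sigma-algebra is generated by the coordinates `0, ..., n - 1`. -/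
def filt (m : ℕ → ℕ) : Filtration ℕ (MeasurableSpace.pi : MeasurableSpace (G m)) where
  seq n := MeasurableSpace.pi.comap (Finset.range n).restrict
  mono' _ _ h := (Filtration.piFinset (X := fun k => ZMod (m k))).mono (Finset.range_mono h)
  le' n := (Filtration.piFinset (X := fun k => ZMod (m k))).le (Finset.range n)

/-- The Vilenkin-Fourier coefficients of a martingale. -/
noncomputable def coeff (m : ℕ → ℕ) (f : ℕ → G m → ℂ) (i : ℕ) : ℂ :=
  limUnder atTop fun k => ∫ x, f k x * (starRingEnd ℂ) (psi m i x) ∂(mu m)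

/-- The partial sums. -/
noncomputable def S (m : ℕ → ℕ) (f : ℕ → G m → ℂ) (n : ℕ) (x : G m) : ℂ :=
  ∑ k ∈ Finset.range n, coeff m f k * psi m k x

/-- The Riesz logarithmic means. -/
noncomputable def R (m : ℕ → ℕ) (f : ℕ → G m → ℂ) (n : ℕ) (x : G m) : ℂ :=
  (∑ k ∈ Finset.Icc 1 n, S m f k x / k) / ∑ k ∈ Finset.Icc 1 n, (1 / k : ℂ)

end Pool.Agent.P.MP_c47ae4_an
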