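import Pool.Agent.P.MP_c47ae4_an.Defs

set_option autoImplicit false

namespace Pool.Agent.P.MP_c47ae4_an

open Finset MeasureTheory

variable {m : ℕ → ℕ}

lemma M_zero : M m 0 = 1 := by simp [M]

lemma M_succ (n : ℕ) : M m (n + 1) = M m n * m n := by simp [M, prod_range_succ]

lemma M_pos (hm : ∀ k, 2 ≤ m k) (n : ℕ) : 0 < M m n :=
  prod_pos fun k _ => by have := hm k; omega

lemma two_pow_mul_le (hm : ∀ k, 2 ≤ m k) (a d : ℕ) : 2 ^ d * M m a ≤ M m (a + d) := by
  induction d with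
  | zero => simp
  | succ d ih =>
    rw [← add_assoc, M_succ, pow_succ]
    have := hm (a + d)
    nlinarith [Nat.zero_le (2 ^ d * M m a)]

lemma M_mono (hm : ∀ k, 2 ≤ m k) {a b : ℕ} (h : a ≤ b) : M m a ≤ M m b := by
  obtain ⟨d, rfl⟩ := Nat.exists_eq_add_of_le h
  have h1 := two_pow_mul_le hm a d
  have h2 : 1 ≤ 2 ^ d := Nat.one_le_two_pow
  nlinarith [Nat.zero_le (M m a)]

lemma lt_M (hm : ∀ k, 2 ≤ m k) (n : ℕ) : n < M m n := by
  have h1 := two_pow_mul_le hm 0 n
  rw [M_zero, zero_add, mul_one] at h1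
  exact lt_of_lt_of_le Nat.lt_two_pow_self h1

lemma M_dvd {a b : ℕ} (h : a < b) : M m a * m a ∣ M m b := by
  rw [← M_succ]
  exact prod_dvd_prod_of_subset _ _ _ (range_mono h)

lemma psi_eq_prod (hm : ∀ k, 2 ≤ m k) {i n : ℕ} (hi : i < M m n) (x : G m) :
    psi m i x = ∏ k ∈ range n, rad m k x ^ (i / M m k % m k) := by
  unfold psi
  refine finprod_eq_prod_of_mulSupport_subset _ fun k hk => ?_
  rw [coe_range, Set.mem_Iio]
  by_contra h
  have h1 : i / M m k = 0 := Nat.div_eq_of_lt (hi.trans_le (M_mono hm (not_lt.1 h)))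
  simp [Function.mem_mulSupport, h1] at hk

lemma psi_add (hm : ∀ k, 2 ≤ m k) {i n c : ℕ} (hi : i < M m n) (hc : c < m n) (x : G m) :
    psi m (M m n * c + i) x = psi m i x * rad m n x ^ c := by
  have h1 : M m n * c + i < M m (n + 1) := by
    rw [M_succ]; nlinarith
  rw [psi_eq_prod hm h1, psi_eq_prod hm hi, prod_range_succ]
  congr 1
  · refine prod_congr rfl fun k hk => ?_
    obtain ⟨q, hq⟩ := M_dvd (m := m) (mem_range.1 hk)
    have h2 : (M m n * c + i) / M m k = i / M m k + m k * (q * c) := by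
      rw [hq, add_comm, show M m k * m k * q * c = M m k * (m k * (q * c)) by ring,
        Nat.add_mul_div_left _ _ (M_pos hm k)]
    rw [h2, Nat.add_mul_mod_self_left]
  · have h2 : (M m n * c + i) / M m n = c := by
      rw [add_comm, Nat.add_mul_div_left _ _ (M_pos hm n), Nat.div_eq_of_lt hi, zero_add]
    rw [h2, Nat.mod_eq_of_lt hc]

lemma sum_range_mul' {E : Type*} [AddCommMonoid E] (F : ℕ → E) (a b : ℕ) :
    ∑ i ∈ range (a * b), F i = ∑ c ∈ range b, ∑ i ∈ range a, F (a * c + i) := by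
  induction b with
  | zero => simp
  | succ b ih => rw [mul_add, mul_one, sum_range_add, ih, sum_range_succ]

/-- One factor of the Poisson type kernel. -/
noncomputable def phi (m : ℕ → ℕ) (t : ℂ) (a : ℕ) (x : G m) : ℂ :=
  ∑ c ∈ range (m a), (t ^ M m a * rad m a x) ^ c

lemma poisson_eq (hm : ∀ k, 2 ≤ m k) (t : ℂ) (n : ℕ) (x : G m) :
    ∑ i ∈ range (M m n), t ^ i * psi m i x = ∏ a ∈ range n, phi m t a x := by
  induction n with
  | zero =>
    rw [M_zero, sum_range_one, psi_eq_prod hm (n := 0) (by simp [M_zero])]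
    simp
  | succ n ih =>
    rw [M_succ, sum_range_mul', prod_range_succ, ← ih, phi, mul_sum]
    refine sum_congr rfl fun c hc => ?_
    rw [sum_mul]
    refine sum_congr rfl fun i hi => ?_
    rw [psi_add hm (mem_range.1 hi) (mem_range.1 hc)]
    ring

variable [∀ k, NeZero (m k)]

lemma rad_eq (k : ℕ) (x : G m) : rad m k x = ZMod.stdAddChar (x k) := by
  rw [ZMod.stdAddChar_apply, ZMod.toCircle_apply]; rfl

lemma norm_rad (k : ℕ) (x : G m) : ‖rad m k x‖ = 1 := by
  rw [rad_eq, ZMod.stdAddChar_apply]; exact Circle.norm_coe _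

lemma rad_sub (k : ℕ) (x y : G m) :
    rad m k (x - y) = rad m k x * (starRingEnd ℂ) (rad m k y) := by
  rw [rad_eq, rad_eq, rad_eq, Pi.sub_apply, sub_eq_add_neg, AddChar.map_add_eq_mul,
    AddChar.map_neg_eq_conj]

lemma sum_rad_pow (k : ℕ) (x : G m) :
    ∑ c ∈ range (m k), rad m k x ^ c = if x k = 0 then (m k : ℂ) else 0 := by
  split_ifs with h
  · simp [rad_eq, h]
  · have h1 : rad m k x ≠ 1 := by
      rw [rad_eq, ← (ZMod.stdAddChar (N := m k)).map_zero_eq_one]
      exact fun h' => h (ZMod.injective_stdAddChar h')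
    have h2 : rad m k x ^ m k = 1 := by
      rw [rad_eq, ← AddChar.map_nsmul_eq_pow]
      simp
    rw [geom_sum_eq h1, h2]
    simp

lemma norm_psi (hm : ∀ k, 2 ≤ m k) (i : ℕ) (x : G m) : ‖psi m i x‖ = 1 := by
  rw [psi_eq_prod hm (lt_M hm i), norm_prod]
  simp [norm_rad]

lemma psi_sub (hm : ∀ k, 2 ≤ m k) (i : ℕ) (x y : G m) :
    psi m i (x - y) = psi m i x * (starRingEnd ℂ) (psi m i y) := by
  rw [psi_eq_prod hm (lt_M hm i), psi_eq_prod hm (lt_M hm i), psi_eq_prod hm (lt_M hm i),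
    map_prod, ← prod_mul_distrib]
  refine prod_congr rfl fun k _ => ?_
  rw [rad_sub, mul_pow, map_pow]

lemma dirichlet_eq (hm : ∀ k, 2 ≤ m k) (n : ℕ) (x : G m) :
    ∑ i ∈ range (M m n), psi m i x = ∏ a ∈ range n, if x a = 0 then (m a : ℂ) else 0 := by
  have := poisson_eq hm 1 n x
  simp only [one_pow, one_mul, phi] at this
  rw [this]
  exact prod_congr rfl fun a _ => sum_rad_pow a x

lemma norm_phi_le {t : ℝ} (h0 : 0 ≤ t) (h1 : t ≤ 1) (a : ℕ) (x : G m) :
    ‖phi m t a x‖ ≤ m a := by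
  unfold phi
  refine (norm_sum_le _ _).trans ?_
  calc ∑ c ∈ range (m a), ‖((t : ℂ) ^ M m a * rad m a x) ^ c‖ ≤ ∑ _c ∈ range (m a), (1 : ℝ) := by
        refine sum_le_sum fun c _ => ?_
        rw [norm_pow, norm_mul, norm_rad, mul_one, norm_pow, Complex.norm_real,
          Real.norm_of_nonneg h0]
        exact pow_le_one₀ (by positivity) (pow_le_one₀ h0 h1)
    _ = m a := by simp

omit [∀ k, NeZero (m k)] in
lemma one_sub_pow_le {t : ℝ} (h0 : 0 ≤ t) (N : ℕ) : 1 - t ^ N ≤ N * (1 - t) := by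
  have := one_add_mul_sub_le_pow (a := t) (by linarith) N
  linarith

lemma norm_phi_le' {B : ℕ} (hB : ∀ k, m k ≤ B) {t : ℝ} (h0 : 0 ≤ t) (h1 : t ≤ 1) (a : ℕ)
    (x : G m) (hx : x a ≠ 0) : ‖phi m t a x‖ ≤ m a * (B * M m a * (1 - t)) := by
  have h2 : phi m t a x = ∑ c ∈ range (m a), (((t ^ (M m a * c) - 1 : ℝ)) : ℂ) * rad m a x ^ c := by
    have h3 := sum_rad_pow a x
    rw [if_neg hx] at h3
    unfold phi
    rw [← sub_zero (∑ c ∈ range (m a), ((t : ℂ) ^ M m a * rad m a x) ^ c), ← h3, ← sum_sub_distrib]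
    refine sum_congr rfl fun c _ => ?_
    push_cast
    ring
  rw [h2]
  refine (norm_sum_le _ _).trans ?_
  calc _ ≤ ∑ _c ∈ range (m a), (B * M m a * (1 - t) : ℝ) := by
        refine sum_le_sum fun c hc => ?_
        rw [norm_mul, norm_pow, norm_rad, one_pow, mul_one, Complex.norm_real, Real.norm_eq_abs,
          abs_sub_comm, abs_of_nonneg (sub_nonneg.2 (pow_le_one₀ h0 h1))]
        refine (one_sub_pow_le h0 _).trans (mul_le_mul_of_nonneg_right ?_ (by linarith))
        have h4 : c ≤ B := (mem_range.1 hc).le.trans (hB a)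
        have h5 : M m a * c ≤ B * M m a := by nlinarith
        exact_mod_cast h5
    _ = _ := by simp

lemma norm_phi_sub_one {B : ℕ} (hm : ∀ k, 2 ≤ m k) (hB : ∀ k, m k ≤ B) {t : ℝ} (h0 : 0 ≤ t)
    (h1 : t ≤ 1) (a : ℕ) (x : G m) : ‖phi m t a x - 1‖ ≤ B * t ^ M m a := by
  obtain ⟨q, hq⟩ : ∃ q, m a = q + 1 := ⟨m a - 1, by have := hm a; omega⟩
  have hqB : (q : ℝ) ≤ B := by
    have := hB a
    have h : q ≤ B := by omega
    exact_mod_cast h
  unfold phi
  rw [show range (m a) = range (q + 1) by rw [hq], sum_range_succ', pow_zero, add_sub_cancel_right]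
  refine (norm_sum_le _ _).trans ?_
  calc _ ≤ ∑ _c ∈ range q, t ^ M m a := by
        refine sum_le_sum fun c _ => ?_
        rw [norm_pow, norm_mul, norm_rad, mul_one, norm_pow, Complex.norm_real,
          Real.norm_of_nonneg h0, pow_succ]
        exact mul_le_of_le_one_left (by positivity)
          (pow_le_one₀ (by positivity) (pow_le_one₀ h0 h1))
    _ = q * t ^ M m a := by simp
    _ ≤ _ := mul_le_mul_of_nonneg_right hqB (by positivity)

/-- The weight attached to one digit. -/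
noncomputable def eps (m : ℕ → ℕ) (A ρ : ℝ) (j : ℕ) (x : G m) (a : ℕ) : ℝ :=
  if x a = 0 then 1 else A * ρ ^ (j - a)

/-- The kernel of the block `[M j, M (j + 1))`. -/
noncomputable def K (m : ℕ → ℕ) (j : ℕ) (x : G m) : ℂ :=
  ∑ i ∈ Ico (M m j) (M m (j + 1)), (∑ k ∈ Ioc i (M m (j + 1)), (1 / k : ℂ)) * psi m i x

omit [∀ k, NeZero (m k)] in
lemma eps_nonneg {A ρ : ℝ} (hA : 0 ≤ A) (hρ : 0 ≤ ρ) (j : ℕ) (x : G m) (a : ℕ) :
    0 ≤ eps m A ρ j x a := by
  unfold eps; split_ifs <;> positivity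

omit [∀ k, NeZero (m k)] in
lemma sum_geom_le {ρ : ℝ} (h0 : 0 ≤ ρ) (h1 : ρ < 1) (j : ℕ) :
    ∑ a ∈ range (j + 1), ρ ^ (j - a) ≤ 1 / (1 - ρ) := by
  have h2 : ∑ a ∈ range (j + 1), ρ ^ (j - a) = ∑ a ∈ range (j + 1), ρ ^ a := by
    rw [← sum_range_reflect]
    refine sum_congr rfl fun a ha => ?_
    have := mem_range.1 ha
    congr 1
    omega
  rw [h2, le_div_iff₀ (by linarith)]
  have := geom_sum_mul_neg ρ (j + 1)
  have : 0 ≤ ρ ^ (j + 1) := by positivity
  linarith

lemma norm_block_le {B : ℕ} (hm : ∀ k, 2 ≤ m k) (hB : ∀ k, m k ≤ B) {L : ℝ} (hL : 0 < L)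
    {j a₀ : ℕ} (ha₀ : a₀ < j) (x : G m) (hx : x a₀ ≠ 0) :
    ‖∑ i ∈ Ico (M m j) (M m (j + 1)), ((Real.exp (-L) : ℝ) : ℂ) ^ i * psi m i x‖ ≤
      (B * (M m j : ℝ) ^ 2 * (∏ a ∈ range j, eps m (4 * B) (3 / 4) j x a) *
        Real.exp (-(M m j : ℝ) / 2 * L)) * (1 - Real.exp (-L)) := by
  set t : ℝ := Real.exp (-L) with ht
  have h0 : 0 ≤ t := (Real.exp_pos _).le
  have h1 : t ≤ 1 := Real.exp_le_one_iff.2 (by linarith)
  have hL' : 1 - t ≤ L := by
    have := Real.add_one_le_exp (-L)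
    linarith
  have hB0 : (0 : ℝ) ≤ B := Nat.cast_nonneg B
  set s : ℝ := M m j * L with hs
  have hMj : (0 : ℝ) < M m j := by exact_mod_cast M_pos hm j
  have hs0 : 0 < s := by positivity
  rw [sum_Ico_eq_sub _ (M_mono hm (Nat.le_succ j)), poisson_eq hm, poisson_eq hm, prod_range_succ,
    ← mul_sub_one, norm_mul, norm_prod]
  have hMa : ∀ a < j, (M m a : ℝ) ≤ (1 / 2) ^ (j - a) * M m j := by
    intro a ha
    have h2 := two_pow_mul_le hm a (j - a)
    rw [show a + (j - a) = j by omega] at h2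
    have h3 : (2 : ℝ) ^ (j - a) * M m a ≤ M m j := by exact_mod_cast h2
    have h4 : (0 : ℝ) < 2 ^ (j - a) := by positivity
    rw [one_div, inv_pow, ← div_eq_inv_mul, le_div_iff₀ h4]
    linarith
  have hfac : ∀ a ∈ range j, ‖phi m t a x‖ ≤
      (m a * eps m (4 * B) (3 / 4) j x a * Real.exp ((2 / 3) ^ (j - a) / 4 * s)) *
        (if a = a₀ then M m j * (1 - t) else 1) := by
    intro a ha
    have haj := mem_range.1 ha
    have hma : (0 : ℝ) ≤ m a := Nat.cast_nonneg _
    have hlam : (0 : ℝ) < (2 / 3) ^ (j - a) / 4 * s := by positivity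
    have hexp : 1 ≤ Real.exp ((2 / 3) ^ (j - a) / 4 * s) := Real.one_le_exp hlam.le
    by_cases hxa : x a = 0
    · have hne : a ≠ a₀ := fun h => hx (h ▸ hxa)
      rw [if_neg hne, eps, if_pos hxa, mul_one, mul_one]
      exact (norm_phi_le h0 h1 a x).trans (le_mul_of_one_le_right hma hexp)
    · rw [eps, if_neg hxa]
      refine (norm_phi_le' hB h0 h1 a x hxa).trans ?_
      rw [mul_assoc (m a : ℝ), mul_assoc (m a : ℝ)]
      refine mul_le_mul_of_nonneg_left ?_ hma
      have h2 := hMa a haj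
      have h3 : (B : ℝ) * M m a * (1 - t) ≤ B * ((1 / 2) ^ (j - a) * M m j) * (1 - t) :=
        mul_le_mul_of_nonneg_right (mul_le_mul_of_nonneg_left h2 hB0) (by linarith)
      refine h3.trans ?_
      have h34 : (0 : ℝ) < (3 / 4) ^ (j - a) := by positivity
      split_ifs with h
      · have h4 : ((1 : ℝ) / 2) ^ (j - a) ≤ (3 / 4) ^ (j - a) :=
          pow_le_pow_left₀ (by norm_num) (by norm_num) _
        have h5 : (1 / 2 : ℝ) ^ (j - a) ≤
            4 * (3 / 4) ^ (j - a) * Real.exp ((2 / 3) ^ (j - a) / 4 * s) := by nlinarith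
        have h6 : 0 ≤ (B : ℝ) * (M m j * (1 - t)) :=
          mul_nonneg hB0 (mul_nonneg hMj.le (by linarith))
        nlinarith [mul_le_mul_of_nonneg_left h5 h6]
      · have h4 : (2 / 3) ^ (j - a) / 4 * s ≤ Real.exp ((2 / 3) ^ (j - a) / 4 * s) := by
          have := Real.add_one_le_exp ((2 / 3) ^ (j - a) / 4 * s)
          linarith
        have h5 : ((1 : ℝ) / 2) ^ (j - a) = (3 / 4) ^ (j - a) * (2 / 3) ^ (j - a) := by
          rw [← mul_pow]; norm_num
        have h6 : (B : ℝ) * ((1 / 2) ^ (j - a) * M m j) * (1 - t) ≤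
            B * ((1 / 2) ^ (j - a) * M m j) * L :=
          mul_le_mul_of_nonneg_left hL' (by positivity)
        have h7 : (B : ℝ) * ((1 / 2) ^ (j - a) * M m j) * L =
            4 * B * (3 / 4) ^ (j - a) * ((2 / 3) ^ (j - a) / 4 * s) := by
          rw [h5, hs]; ring
        rw [mul_one]
        exact h6.trans (h7.le.trans (mul_le_mul_of_nonneg_left h4 (by positivity)))
  have hprod := prod_le_prod (fun a _ => norm_nonneg (phi m t a x)) hfac
  rw [prod_mul_distrib, prod_mul_distrib, prod_mul_distrib, prod_ite_eq', if_pos (mem_range.2 ha₀),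
    ← Real.exp_sum, ← Nat.cast_prod, ← sum_mul, ← sum_div] at hprod
  have hsum : ∑ a ∈ range j, ((2 : ℝ) / 3) ^ (j - a) ≤ 2 := by
    have h2 := sum_geom_le (ρ := 2 / 3) (by norm_num) (by norm_num) j
    rw [sum_range_succ, Nat.sub_self, pow_zero] at h2
    norm_num at h2
    linarith
  have hE : 0 ≤ ∏ a ∈ range j, eps m (4 * B) (3 / 4) j x a :=
    prod_nonneg fun a _ => eps_nonneg (by positivity) (by norm_num) j x a
  have hexp : Real.exp ((∑ a ∈ range j, ((2 : ℝ) / 3) ^ (j - a)) / 4 * s) ≤ Real.exp (s / 2) :=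
    Real.exp_le_exp.2 (by nlinarith)
  have hlast := norm_phi_sub_one hm hB h0 h1 j x
  have htM : t ^ M m j = Real.exp (-s) := by
    rw [ht, ← Real.exp_nat_mul, hs]; congr 1; ring
  have hfin : Real.exp (-(M m j : ℝ) / 2 * L) = Real.exp (s / 2) * Real.exp (-s) := by
    rw [← Real.exp_add, hs]; congr 1; ring
  have h1t : 0 ≤ 1 - t := by linarith
  calc _ ≤ ((M m j : ℝ) * (∏ a ∈ range j, eps m (4 * B) (3 / 4) j x a) * Real.exp (s / 2) *
        (M m j * (1 - t))) * (B * t ^ M m j) := by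
        refine mul_le_mul (hprod.trans ?_) hlast (norm_nonneg _) (by positivity)
        exact mul_le_mul_of_nonneg_right (mul_le_mul_of_nonneg_left hexp (by positivity))
          (by positivity)
    _ = _ := by rw [htM, hfin]; ring

lemma norm_K_le_of_ne {B : ℕ} (hm : ∀ k, 2 ≤ m k) (hB : ∀ k, m k ≤ B)
    {j a₀ : ℕ} (ha₀ : a₀ < j) (x : G m) (hx : x a₀ ≠ 0) :
    ‖K m j x‖ ≤ B * M m (j + 1) * ∏ a ∈ range j, eps m (4 * B) (3 / 4) j x a := by
  have hMj : (0 : ℝ) < M m j := by exact_mod_cast M_pos hm j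
  have hint : ∀ k : ℕ, 0 < k →
      IntegrableOn (fun L : ℝ => Complex.exp (-(k : ℂ) * L)) (Set.Ioi 0) := fun k hk =>
    integrableOn_exp_mul_complex_Ioi (by simpa using hk) 0
  have hval : ∀ k : ℕ, 0 < k → ∫ L in Set.Ioi (0 : ℝ), Complex.exp (-(k : ℂ) * L) = 1 / k := by
    intro k hk
    rw [integral_exp_mul_complex_Ioi (by simpa using hk) 0]
    simp
  have hK : K m j x = ∫ L in Set.Ioi (0 : ℝ), ∑ i ∈ Ico (M m j) (M m (j + 1)),
      (∑ k ∈ Ioc i (M m (j + 1)), Complex.exp (-(k : ℂ) * L)) * psi m i x := by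
    unfold K
    rw [integral_finsetSum]
    · refine sum_congr rfl fun i _ => ?_
      rw [integral_mul_const, integral_finsetSum]
      · congr 1
        exact sum_congr rfl fun k hk => (hval k (by have := mem_Ioc.1 hk; omega)).symm
      · exact fun k hk => hint k (by have := mem_Ioc.1 hk; omega)
    · intro i _
      exact (integrable_finsetSum _ fun k hk =>
        hint k (by have := mem_Ioc.1 hk; omega)).mul_const _
  have hzero : ∑ i ∈ Ico (M m j) (M m (j + 1)), psi m i x = 0 := by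
    rw [sum_Ico_eq_sub _ (M_mono hm (Nat.le_succ j)), dirichlet_eq hm, dirichlet_eq hm,
      prod_eq_zero (mem_range.2 ha₀) (if_neg hx),
      prod_eq_zero (mem_range.2 (ha₀.trans (Nat.lt_succ_self j))) (if_neg hx), sub_zero]
  set E : ℝ := ∏ a ∈ range j, eps m (4 * B) (3 / 4) j x a with hEdef
  have hE : 0 ≤ E := prod_nonneg fun a _ => eps_nonneg (by positivity) (by norm_num) j x a
  have hneg : -(M m j : ℝ) / 2 < 0 := by linarith
  have hbound : ∀ L ∈ Set.Ioi (0 : ℝ), ‖∑ i ∈ Ico (M m j) (M m (j + 1)),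
      (∑ k ∈ Ioc i (M m (j + 1)), Complex.exp (-(k : ℂ) * L)) * psi m i x‖ ≤
      B * (M m j : ℝ) ^ 2 * E * Real.exp (-(M m j : ℝ) / 2 * L) := by
    intro L hL
    have hL0 : 0 < L := hL
    have h1 := norm_block_le hm hB hL0 ha₀ x hx
    set t : ℝ := Real.exp (-L) with ht
    have ht0 : 0 ≤ t := (Real.exp_pos _).le
    have ht1 : t < 1 := Real.exp_lt_one_iff.2 (by linarith)
    have hexp : ∀ k : ℕ, Complex.exp (-(k : ℂ) * L) = (t : ℂ) ^ k := by
      intro k
      rw [ht, Complex.ofReal_exp, ← Complex.exp_nat_mul]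
      congr 1
      push_cast
      ring
    have hgeom : ∀ i N : ℕ, i ≤ N → (∑ k ∈ Ioc i N, (t : ℂ) ^ k) * (1 - t) =
        (t : ℂ) ^ (i + 1) - (t : ℂ) ^ (N + 1) := by
      intro i N hi
      induction hi with
      | refl => simp
      | step h ih => rw [sum_Ioc_succ_top h, add_mul, ih, Nat.succ_eq_add_one]; ring
    have hid : (∑ i ∈ Ico (M m j) (M m (j + 1)),
        (∑ k ∈ Ioc i (M m (j + 1)), Complex.exp (-(k : ℂ) * L)) * psi m i x) * (1 - t) =
        t * ∑ i ∈ Ico (M m j) (M m (j + 1)), (t : ℂ) ^ i * psi m i x := by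
      rw [← sub_zero (_ * ∑ i ∈ Ico (M m j) (M m (j + 1)), (t : ℂ) ^ i * psi m i x),
        ← mul_zero ((t : ℂ) ^ (M m (j + 1) + 1)), ← hzero, sum_mul, mul_sum, mul_sum,
        ← sum_sub_distrib]
      refine sum_congr rfl fun i hi => ?_
      simp only [hexp]
      rw [mul_right_comm, hgeom i _ (mem_Ico.1 hi).2.le]
      ring
    have h2 := congrArg norm hid
    rw [norm_mul, norm_mul, ← Complex.ofReal_one, ← Complex.ofReal_sub, Complex.norm_real,
      Complex.norm_real, Real.norm_of_nonneg ht0, Real.norm_of_nonneg (by linarith)] at h2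
    refine le_of_mul_le_mul_right ?_ (sub_pos.2 ht1)
    rw [h2]
    exact (mul_le_of_le_one_left (norm_nonneg _) ht1.le).trans h1
  rw [hK]
  refine (norm_integral_le_of_norm_le
    ((integrableOn_exp_mul_Ioi hneg 0).const_mul (B * (M m j : ℝ) ^ 2 * E)) ?_).trans ?_
  · exact (ae_restrict_iff' measurableSet_Ioi).2 (Filter.Eventually.of_forall hbound)
  · rw [integral_const_mul, integral_exp_mul_Ioi hneg 0]
    have h2 : (2 : ℝ) * M m j ≤ M m (j + 1) := by
      have := two_pow_mul_le hm j 1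
      exact_mod_cast this
    have h3 : (B : ℝ) * (M m j : ℝ) ^ 2 * E * (-Real.exp (-(M m j : ℝ) / 2 * 0) / (-(M m j : ℝ) / 2))
        = B * (2 * M m j) * E := by
      rw [mul_zero, Real.exp_zero]
      field_simp
    rw [h3]
    exact mul_le_mul_of_nonneg_right (mul_le_mul_of_nonneg_left h2 (Nat.cast_nonneg B)) hE

lemma norm_K_le_triv {B : ℕ} (hm : ∀ k, 2 ≤ m k) (hB : ∀ k, m k ≤ B) (j : ℕ) (x : G m) :
    ‖K m j x‖ ≤ B * M m (j + 1) := by
  have hMj : (0 : ℝ) < M m j := by exact_mod_cast M_pos hm j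
  unfold K
  refine (norm_sum_le _ _).trans ?_
  calc _ ≤ ∑ _i ∈ Ico (M m j) (M m (j + 1)), (B : ℝ) := by
        refine sum_le_sum fun i hi => ?_
        rw [norm_mul, norm_psi hm, mul_one]
        refine (norm_sum_le _ _).trans ?_
        calc _ ≤ ∑ _k ∈ Ioc i (M m (j + 1)), 1 / (M m j : ℝ) := by
              refine sum_le_sum fun k hk => ?_
              rw [norm_div, norm_one, Complex.norm_natCast]
              refine one_div_le_one_div_of_le hMj ?_
              have h1 := mem_Ico.1 hi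
              have h2 := mem_Ioc.1 hk
              have h3 : M m j ≤ k := by omega
              exact_mod_cast h3
          _ ≤ B := by
              rw [sum_const, Nat.card_Ioc, nsmul_eq_mul, mul_one_div, div_le_iff₀ hMj]
              have h1 : M m (j + 1) - i ≤ B * M m j := by
                have h2 := hB j
                have h3 : M m j * m j ≤ B * M m j := by nlinarith
                rw [M_succ]
                omega
              exact_mod_cast h1
    _ ≤ _ := by
        rw [sum_const, Nat.card_Ico, nsmul_eq_mul, mul_comm]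
        refine mul_le_mul_of_nonneg_left ?_ (Nat.cast_nonneg B)
        exact_mod_cast Nat.sub_le _ _

/-- The product bound for the block kernel. -/
lemma norm_K_le {B : ℕ} (hm : ∀ k, 2 ≤ m k) (hB : ∀ k, m k ≤ B) (j : ℕ) (x : G m) :
    ‖K m j x‖ ≤ B * M m (j + 1) * ∏ a ∈ range (j + 1), eps m (4 * B) (3 / 4) j x a := by
  have hB1 : (1 : ℝ) ≤ B := by
    have h1 := hm 0
    have h2 := hB 0
    have h3 : 1 ≤ B := by omega
    exact_mod_cast h3
  have hj : 1 ≤ eps m (4 * B) (3 / 4) j x j := by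
    unfold eps
    split_ifs
    · exact le_rfl
    · rw [Nat.sub_self, pow_zero]; linarith
  have hE : 0 ≤ ∏ a ∈ range j, eps m (4 * B) (3 / 4) j x a :=
    prod_nonneg fun a _ => eps_nonneg (by positivity) (by norm_num) j x a
  have h1 : ‖K m j x‖ ≤ B * M m (j + 1) * ∏ a ∈ range j, eps m (4 * B) (3 / 4) j x a := by
    by_cases h : ∃ a < j, x a ≠ 0
    · obtain ⟨a, ha, hx⟩ := h
      exact norm_K_le_of_ne hm hB ha x hx
    · push Not at h
      have h2 : ∏ a ∈ range j, eps m (4 * B) (3 / 4) j x a = 1 :=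
        prod_eq_one fun a ha => if_pos (h a (mem_range.1 ha))
      rw [h2, mul_one]
      exact norm_K_le_triv hm hB j x
  rw [prod_range_succ]
  exact h1.trans (mul_le_mul_of_nonneg_left (le_mul_of_one_le_right hE hj) (by positivity))

end Pool.Agent.P.MP_c47ae4_an
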