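import Pool.Agent.P.MP_c47ae4_an.Conv

set_option autoImplicit false

namespace Pool.Agent.P.MP_c47ae4_an

open Finset MeasureTheory ProbabilityTheory Filter

variable {m : ℕ → ℕ}

/-- The running maximum of a process. -/
noncomputable def F (f : ℕ → G m → ℂ) : ℕ → G m → ℝ
  | 0, x => ‖f 0 x‖
  | j + 1, x => max (F f j x) ‖f (j + 1) x‖

/-- Its `p`-th power. -/
noncomputable def hh (f : ℕ → G m → ℂ) (p : ℝ) (j : ℕ) (x : G m) : ℝ := F f j x ^ p

/-- The increments. -/
noncomputable def dl (f : ℕ → G m → ℂ) (p : ℝ) (i : ℕ) (x : G m) : ℝ :=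
  hh f p (i + 1) x - hh f p i x

variable {f : ℕ → G m → ℂ} {p : ℝ}

lemma F_nonneg (j : ℕ) (x : G m) : 0 ≤ F f j x := by
  cases j with
  | zero => exact norm_nonneg _
  | succ j => exact le_max_of_le_right (norm_nonneg _)

lemma F_mono (x : G m) : Monotone fun j => F f j x :=
  monotone_nat_of_le_succ fun _ => le_max_left _ _

lemma le_F {j n : ℕ} (h : j ≤ n) (x : G m) : ‖f j x‖ ≤ F f n x := by
  refine le_trans ?_ (F_mono x h)
  cases j with
  | zero => exact le_rfl
  | succ j => exact le_max_right _ _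

lemma F_le (n : ℕ) (x : G m) : ENNReal.ofReal (F f n x) ≤ ⨆ j, ‖f j x‖ₑ := by
  induction n with
  | zero => rw [F, ofReal_norm]; exact le_iSup (fun j => ‖f j x‖ₑ) 0
  | succ n ih =>
    rw [F, ENNReal.ofReal_max, ofReal_norm]
    exact max_le ih (le_iSup (fun j => ‖f j x‖ₑ) (n + 1))

lemma hh_nonneg (j : ℕ) (x : G m) : 0 ≤ hh f p j x := Real.rpow_nonneg (F_nonneg j x) p

lemma hh_mono (hp : 0 ≤ p) (x : G m) : Monotone fun j => hh f p j x := fun _ _ h =>
  Real.rpow_le_rpow (F_nonneg _ x) (F_mono x h) hp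

lemma dl_nonneg (hp : 0 ≤ p) (i : ℕ) (x : G m) : 0 ≤ dl f p i x :=
  sub_nonneg.2 (hh_mono hp x (Nat.le_succ i))

lemma dependsOn_F (hf : Martingale f (filt m) (mu m)) (n : ℕ) :
    DependsOn (F f n) (range n : Set ℕ) := by
  induction n with
  | zero => intro x y h; simp only [F, dependsOn_mart hf 0 h]
  | succ n ih =>
    intro x y h
    have h1 : F f n x = F f n y :=
      ih fun k hk => h k (range_mono (Nat.le_succ n) hk)
    simp only [F, dependsOn_mart hf (n + 1) h, h1]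

lemma dependsOn_hh (hf : Martingale f (filt m) (mu m)) (n : ℕ) :
    DependsOn (hh f p n) (range n : Set ℕ) := fun _ _ h => by
  simp only [hh, dependsOn_F hf n h]

lemma dependsOn_dl (hf : Martingale f (filt m) (mu m)) (n : ℕ) :
    DependsOn (dl f p n) (range (n + 1) : Set ℕ) := fun _ _ h => by
  have h1 := dependsOn_hh (p := p) hf n fun k hk => h k (range_mono (Nat.le_succ n) hk)
  simp only [dl, dependsOn_hh hf (n + 1) h, h1]

open Classical in
lemma hh_shift (hf : Martingale f (filt m) (mu m)) (hp : 0 ≤ p) (x z : G m) (j : ℕ) :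
    hh f p j (x - z) ≤ hh f p j x +
      ∑ i ∈ range j, if ∃ a ≤ i, z a ≠ 0 then dl f p i (x - z) else 0 := by
  induction j with
  | zero => rw [dependsOn_hh hf 0 (x := x - z) (y := x) (by simp)]; simp
  | succ j ih =>
    by_cases h : ∃ a ≤ j, z a ≠ 0
    · rw [sum_range_succ, if_pos h]
      have h1 := hh_mono (f := f) hp x (Nat.le_succ j)
      have h2 : dl f p j (x - z) = hh f p (j + 1) (x - z) - hh f p j (x - z) := rfl
      dsimp only at h1
      linarith
    · have h1 : hh f p (j + 1) (x - z) = hh f p (j + 1) x := by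
        refine dependsOn_hh hf (j + 1) fun k hk => ?_
        have hk' : k < j + 1 := by simpa using hk
        have h2 : z k = 0 := by
          by_contra h3
          exact h ⟨k, by omega, h3⟩
        rw [Pi.sub_apply, h2, sub_zero]
      rw [h1]
      refine le_add_of_nonneg_right (sum_nonneg fun i _ => ?_)
      split_ifs
      · exact dl_nonneg hp _ _
      · exact le_rfl

lemma rpow_sum_le {ι : Type} (s : Finset ι) (a : ι → ℝ) (ha : ∀ i ∈ s, 0 ≤ a i) (hp0 : 0 < p)
    (hp1 : p ≤ 1) : (∑ i ∈ s, a i) ^ p ≤ ∑ i ∈ s, a i ^ p := by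
  classical
  induction s using Finset.induction_on with
  | empty => simp [Real.zero_rpow hp0.ne']
  | insert i s hi ih =>
    rw [sum_insert hi, sum_insert hi]
    have h1 := ih fun j hj => ha j (mem_insert_of_mem hj)
    have h2 := Real.rpow_add_le_add_rpow (ha i (mem_insert_self _ _))
      (sum_nonneg fun j hj => ha j (mem_insert_of_mem hj)) hp0.le hp1
    linarith

lemma prod_eps_rpow {A : ℝ} (hA : 0 ≤ A) (j : ℕ) (z : G m) :
    (∏ a ∈ range (j + 1), eps m A (3 / 4) j z a) ^ p =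
      ∏ a ∈ range (j + 1), eps m (A ^ p) ((3 / 4) ^ (p / 2)) j z a *
        eps m 1 ((3 / 4) ^ (p / 2)) j z a := by
  rw [← Real.finsetProd_rpow _ _ fun a _ => eps_nonneg hA (by norm_num) j z a]
  refine prod_congr rfl fun a _ => ?_
  unfold eps
  split_ifs
  · simp
  · rw [Real.mul_rpow hA (by positivity), one_mul, mul_assoc, ← mul_pow,
      ← Real.rpow_add (by norm_num), add_halves, ← Real.rpow_natCast, ← Real.rpow_natCast,
      ← Real.rpow_mul (by norm_num), ← Real.rpow_mul (by norm_num), mul_comm p]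

lemma prod_eps_one_le {σ : ℝ} (h0 : 0 ≤ σ) (h1 : σ ≤ 1) (j : ℕ) (z : G m) :
    ∏ a ∈ range (j + 1), eps m 1 σ j z a ≤ 1 := by
  refine prod_le_one (fun a _ => eps_nonneg zero_le_one h0 j z a) fun a _ => ?_
  unfold eps
  split_ifs
  · exact le_rfl
  · rw [one_mul]; exact pow_le_one₀ h0 h1

lemma prod_eps_one_le' {σ : ℝ} (h0 : 0 ≤ σ) (h1 : σ ≤ 1) {i j : ℕ} (hij : i ≤ j) (z : G m)
    (h : ∃ a ≤ i, z a ≠ 0) : ∏ a ∈ range (j + 1), eps m 1 σ j z a ≤ σ ^ (j - i) := by
  obtain ⟨a, ha, hz⟩ := h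
  have h2 : ∀ b ∈ range (j + 1), eps m 1 σ j z b ≤ if b = a then σ ^ (j - i) else 1 := by
    intro b _
    unfold eps
    split_ifs with h3 h4 h4
    · exact absurd (h4 ▸ h3) hz
    · exact le_rfl
    · rw [one_mul, h4]
      exact pow_le_pow_of_le_one h0 h1 (by omega)
    · rw [one_mul]; exact pow_le_one₀ h0 h1
  have h3 := prod_le_prod (fun b _ => eps_nonneg zero_le_one h0 j z b) h2
  rwa [prod_ite_eq', if_pos (mem_range.2 (by omega))] at h3

variable [∀ k, NeZero (m k)]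

lemma sum_prod_eps_le {B : ℕ} (hB : ∀ k, m k ≤ B) {A σ : ℝ} (hA : 0 ≤ A) (h0 : 0 ≤ σ)
    (h1 : σ < 1) (j : ℕ) :
    ∑ z : Z m (j + 1), ∏ a ∈ range (j + 1), eps m A σ j (ext0 z) a ≤
      Real.exp (B * A * (1 / (1 - σ))) := by
  classical
  have h2 : ∀ z : Z m (j + 1), ∏ a ∈ range (j + 1), eps m A σ j (ext0 z) a =
      ∏ a : Fin (j + 1), (if z a = 0 then 1 else A * σ ^ (j - a)) := by
    intro z
    rw [← Fin.prod_univ_eq_prod_range (fun a => eps m A σ j (ext0 z) a) (j + 1)]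
    refine prod_congr rfl fun a _ => ?_
    rw [eps, ext0_apply]
  simp only [h2]
  rw [← Fintype.piFinset_univ, ← prod_univ_sum (fun _ => univ)
    (fun (a : Fin (j + 1)) (c : ZMod (m a)) => if c = 0 then (1 : ℝ) else A * σ ^ (j - a))]
  have h3 : ∀ a : Fin (j + 1), ∑ c : ZMod (m a), (if c = 0 then (1 : ℝ) else A * σ ^ (j - a)) ≤
      Real.exp (B * A * σ ^ (j - a)) := by
    intro a
    have h4 : 0 ≤ A * σ ^ (j - a) := by positivity
    calc _ ≤ ∑ c : ZMod (m a), ((if c = 0 then (1 : ℝ) else 0) + A * σ ^ (j - a)) := by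
          refine sum_le_sum fun c _ => ?_
          split_ifs <;> linarith
      _ = 1 + m a * (A * σ ^ (j - a)) := by
          rw [sum_add_distrib, sum_ite_eq', if_pos (mem_univ _), sum_const, card_univ, ZMod.card,
            nsmul_eq_mul]
      _ ≤ B * A * σ ^ (j - a) + 1 := by
          have h5 : (m a : ℝ) ≤ B := by exact_mod_cast hB a
          nlinarith
      _ ≤ _ := Real.add_one_le_exp _
  refine (prod_le_prod (fun a _ => sum_nonneg fun c _ => by split_ifs <;> positivity)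
    fun a _ => h3 a).trans ?_
  rw [← Real.exp_sum, Real.exp_le_exp, ← mul_sum,
    Fin.sum_univ_eq_sum_range (fun a => σ ^ (j - a)) (j + 1)]
  exact mul_le_mul_of_nonneg_left (sum_geom_le h0 h1 j) (by positivity)

/-- The weights after taking `p`-th powers. -/
noncomputable def wt (m : ℕ → ℕ) (B : ℕ) (p : ℝ) (j : ℕ) (z : G m) : ℝ :=
  (B : ℝ) ^ p * ∏ a ∈ range (j + 1), eps m ((4 * B) ^ p) ((3 / 4) ^ (p / 2)) j z a

/-- The constant bounding the total weight. -/
noncomputable def cst (B : ℕ) (p : ℝ) : ℝ :=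
  (B : ℝ) ^ p * Real.exp (B * (4 * B) ^ p * (1 / (1 - (3 / 4) ^ (p / 2))))

/-- The shifted increments. -/
noncomputable def TT (f : ℕ → G m → ℂ) (B : ℕ) (p : ℝ) (j : ℕ) (x : G m) : ℝ :=
  ∑ i ∈ range (j + 1), ((3 / 4 : ℝ) ^ (p / 2)) ^ (j - i) *
    ∑ z : Z m (j + 1), wt m B p j (ext0 z) * dl f p i (x - ext0 z)

omit [∀ k, NeZero (m k)] in
lemma sig_nonneg : (0 : ℝ) ≤ (3 / 4) ^ (p / 2) := by positivity

omit [∀ k, NeZero (m k)] in
lemma sig_lt_one (hp : 0 < p) : ((3 : ℝ) / 4) ^ (p / 2) < 1 :=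
  Real.rpow_lt_one (by norm_num) (by norm_num) (by linarith)

omit [∀ k, NeZero (m k)] in
lemma wt_nonneg (B j : ℕ) (z : G m) : 0 ≤ wt m B p j z :=
  mul_nonneg (by positivity)
    (prod_nonneg fun a _ => eps_nonneg (by positivity) sig_nonneg j z a)

omit [∀ k, NeZero (m k)] in
lemma cst_nonneg (B : ℕ) : 0 ≤ cst B p := by unfold cst; positivity

lemma sum_wt_le {B : ℕ} (hB : ∀ k, m k ≤ B) (hp : 0 < p) (j : ℕ) :
    ∑ z : Z m (j + 1), wt m B p j (ext0 z) ≤ cst B p := by
  unfold wt cst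
  rw [← mul_sum]
  exact mul_le_mul_of_nonneg_left
    (sum_prod_eps_le hB (by positivity) sig_nonneg (sig_lt_one hp) j) (by positivity)

lemma TT_nonneg (hp : 0 < p) (B j : ℕ) (x : G m) : 0 ≤ TT f B p j x :=
  sum_nonneg fun _ _ => mul_nonneg (pow_nonneg sig_nonneg _)
    (sum_nonneg fun _ _ => mul_nonneg (wt_nonneg _ _ _) (dl_nonneg hp.le _ _))

lemma norm_U_rpow_le {B : ℕ} (hm : ∀ k, 2 ≤ m k) (hB : ∀ k, m k ≤ B)
    (hf : Martingale f (filt m) (mu m)) (hp0 : 0 < p) (hp1 : p ≤ 1) (j : ℕ) (x : G m) :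
    ‖U m f j x‖ ^ p ≤ cst B p * hh f p (j + 1) x + TT f B p j x := by
  classical
  have hE : ∀ z : G m, 0 ≤ ∏ a ∈ range (j + 1), eps m (4 * B) (3 / 4) j z a := fun z =>
    prod_nonneg fun a _ => eps_nonneg (by positivity) (by norm_num) j z a
  refine (Real.rpow_le_rpow (norm_nonneg _) (norm_U_le hm hB hf j x) hp0.le).trans ?_
  refine (rpow_sum_le _ _ (fun z _ => mul_nonneg (mul_nonneg (Nat.cast_nonneg B) (hE _))
    (norm_nonneg _)) hp0 hp1).trans ?_
  have key : ∀ z : G m, ((B * ∏ a ∈ range (j + 1), eps m (4 * B) (3 / 4) j z a) *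
      ‖f (j + 1) (x - z)‖) ^ p ≤ wt m B p j z * hh f p (j + 1) x +
        ∑ i ∈ range (j + 1), ((3 / 4 : ℝ) ^ (p / 2)) ^ (j - i) *
          (wt m B p j z * dl f p i (x - z)) := by
    intro z
    rw [Real.mul_rpow (mul_nonneg (Nat.cast_nonneg B) (hE z)) (norm_nonneg _),
      Real.mul_rpow (Nat.cast_nonneg B) (hE z), prod_eps_rpow (by positivity), prod_mul_distrib,
      ← mul_assoc]
    change wt m B p j z * _ * _ ≤ _
    set q := ∏ a ∈ range (j + 1), eps m 1 ((3 / 4) ^ (p / 2)) j z a with hq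
    have hq0 : 0 ≤ q := prod_nonneg fun a _ => eps_nonneg zero_le_one sig_nonneg j z a
    have hq1 : q ≤ 1 := prod_eps_one_le sig_nonneg (sig_lt_one hp0).le j z
    have hw := wt_nonneg (p := p) B j z
    have h1 : ‖f (j + 1) (x - z)‖ ^ p ≤ hh f p (j + 1) (x - z) :=
      Real.rpow_le_rpow (norm_nonneg _) (le_F le_rfl _) hp0.le
    have h2 := h1.trans (hh_shift hf hp0.le x z (j + 1))
    refine (mul_le_mul_of_nonneg_left h2 (mul_nonneg hw hq0)).trans ?_
    rw [mul_add, mul_sum]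
    refine add_le_add (mul_le_mul_of_nonneg_right (mul_le_of_le_one_right hw hq1)
      (hh_nonneg _ _)) (sum_le_sum fun i hi => ?_)
    have h3 := mul_nonneg hw (dl_nonneg (f := f) hp0.le i (x - z))
    split_ifs with h
    · have h4 := prod_eps_one_le' sig_nonneg (sig_lt_one hp0).le
        (Nat.lt_succ_iff.1 (mem_range.1 hi)) z h
      rw [← hq] at h4
      nlinarith
    · rw [mul_zero]
      exact mul_nonneg (pow_nonneg sig_nonneg _) h3
  refine (sum_le_sum fun z _ => key (ext0 z)).trans ?_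
  rw [sum_add_distrib, ← sum_mul, sum_comm]
  refine add_le_add (mul_le_mul_of_nonneg_right (sum_wt_le hB hp0 j) (hh_nonneg _ _)) ?_
  unfold TT
  simp only [mul_sum]
  exact le_rfl

/-- The majorant. -/
noncomputable def Phi (f : ℕ → G m → ℂ) (B : ℕ) (p : ℝ) (n : ℕ) (x : G m) : ℝ :=
  hh f p n x + 2 * (cst B p * hh f p n x + ∑ j ∈ range n, TT f B p j x)

lemma norm_R_rpow_le {B : ℕ} (hm : ∀ k, 2 ≤ m k) (hB : ∀ k, m k ≤ B)
    (hf : Martingale f (filt m) (mu m)) (hp0 : 0 < p) (hp1 : p ≤ 1) (n : ℕ) (x : G m) :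
    ‖R m f (M m n) x‖ ^ p ≤ Phi f B p n x := by
  set Y := cst B p * hh f p n x + ∑ j ∈ range n, TT f B p j x with hY
  have hY0 : 0 ≤ Y := add_nonneg (mul_nonneg (cst_nonneg B) (hh_nonneg _ _))
    (sum_nonneg fun j _ => TT_nonneg hp0 B j x)
  have h1 : ∀ j < n, ‖U m f j x‖ ≤ Y ^ p⁻¹ := by
    intro j hj
    rw [Real.le_rpow_inv_iff_of_pos (norm_nonneg _) hY0 hp0]
    refine (norm_U_rpow_le hm hB hf hp0 hp1 j x).trans (add_le_add ?_ ?_)
    · exact mul_le_mul_of_nonneg_left (hh_mono hp0.le x hj) (cst_nonneg B)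
    · exact single_le_sum (f := fun j => TT f B p j x) (fun j _ => TT_nonneg hp0 B j x)
        (mem_range.2 hj)
  have h2 := norm_R_le hm hf x n (fun j hj => le_F hj x) (Real.rpow_nonneg hY0 _) h1
  refine (Real.rpow_le_rpow (norm_nonneg _) h2 hp0.le).trans ?_
  refine (Real.rpow_add_le_add_rpow (F_nonneg _ _) (by positivity) hp0.le hp1).trans ?_
  rw [Real.mul_rpow (by norm_num) (Real.rpow_nonneg hY0 _), Real.rpow_inv_rpow hY0 hp0.ne']
  have h3 : (2 : ℝ) ^ p ≤ 2 := by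
    have := Real.rpow_le_rpow_of_exponent_le (x := 2) (by norm_num) hp1
    rwa [Real.rpow_one] at this
  have h4 := mul_le_mul_of_nonneg_right h3 hY0
  unfold Phi hh at *
  linarith

lemma Phi_nonneg (hp : 0 < p) (B n : ℕ) (x : G m) : 0 ≤ Phi f B p n x := by
  have h1 := hh_nonneg (f := f) (p := p) n x
  have h2 := mul_nonneg (cst_nonneg (p := p) B) h1
  have h3 : 0 ≤ ∑ j ∈ range n, TT f B p j x := sum_nonneg fun j _ => TT_nonneg hp B j x
  unfold Phi
  linarith

lemma Phi_mono (hp : 0 < p) (B : ℕ) (x : G m) : Monotone fun n => Phi f B p n x := by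
  refine monotone_nat_of_le_succ fun n => ?_
  have h1 := hh_mono (f := f) hp.le x (Nat.le_succ n)
  have h2 := mul_le_mul_of_nonneg_left h1 (cst_nonneg (p := p) B)
  have h3 := TT_nonneg (f := f) hp B n x
  unfold Phi
  rw [sum_range_succ]
  dsimp only at h1 h2
  linarith

lemma dependsOn_TT (hf : Martingale f (filt m) (mu m)) (B j : ℕ) :
    DependsOn (TT f B p j) (range (j + 1) : Set ℕ) := by
  intro x y h
  unfold TT
  refine sum_congr rfl fun i hi => ?_
  congr 1
  refine sum_congr rfl fun z _ => ?_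
  congr 1
  refine dependsOn_sub (dependsOn_dl hf i) (ext0 z) fun k hk => h k ?_
  exact range_mono (mem_range.1 hi) hk

lemma dependsOn_Phi (hf : Martingale f (filt m) (mu m)) (B n : ℕ) :
    DependsOn (Phi f B p n) (range n : Set ℕ) := by
  intro x y h
  unfold Phi
  rw [dependsOn_hh hf n h, sum_congr rfl fun j hj =>
    dependsOn_TT hf B j fun k hk => h k (range_mono (mem_range.1 hj) hk)]

lemma integral_TT_le {B : ℕ} (hB : ∀ k, m k ≤ B) (hf : Martingale f (filt m) (mu m))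
    (hp : 0 < p) (j : ℕ) :
    ∫ x, TT f B p j x ∂(mu m) ≤ cst B p * ∑ i ∈ range (j + 1),
      ((3 / 4 : ℝ) ^ (p / 2)) ^ (j - i) * ∫ x, dl f p i x ∂(mu m) := by
  have hint : ∀ i (z : G m), Integrable (fun x => dl f p i (x - z)) (mu m) := fun i z =>
    integrable_of_dependsOn (dependsOn_sub (dependsOn_dl hf i) z)
  unfold TT
  rw [integral_finsetSum _ fun i _ =>
    (integrable_finsetSum _ fun z _ => (hint i _).const_mul _).const_mul _, mul_sum]
  refine sum_le_sum fun i _ => ?_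
  rw [integral_const_mul, integral_finsetSum _ fun z _ => (hint i _).const_mul _]
  simp only [integral_const_mul, integral_sub_right_eq_self (fun x => dl f p i x)]
  rw [← sum_mul, mul_left_comm]
  exact mul_le_mul_of_nonneg_right (sum_wt_le hB hp j) (mul_nonneg (pow_nonneg sig_nonneg _)
    (integral_nonneg fun x => dl_nonneg hp.le i x))

omit [∀ k, NeZero (m k)] in
lemma double_sum_le {σ : ℝ} (h0 : 0 ≤ σ) (h1 : σ < 1) (D : ℕ → ℝ) (hD : ∀ i, 0 ≤ D i) (n : ℕ) :
    ∑ j ∈ range n, ∑ i ∈ range (j + 1), σ ^ (j - i) * D i ≤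
      1 / (1 - σ) * ∑ i ∈ range n, D i := by
  have key : ∀ n, (1 - σ) * ∑ j ∈ range n, ∑ i ∈ range (j + 1), σ ^ (j - i) * D i +
      ∑ i ∈ range n, σ ^ (n - i) * D i = ∑ i ∈ range n, D i := by
    intro n
    induction n with
    | zero => simp
    | succ n ih =>
      have h2 : ∑ i ∈ range (n + 1), σ ^ (n + 1 - i) * D i =
          σ * ∑ i ∈ range (n + 1), σ ^ (n - i) * D i := by
        rw [mul_sum]
        refine sum_congr rfl fun i hi => ?_
        have := mem_range.1 hi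
        rw [show n + 1 - i = n - i + 1 by omega]
        ring
      rw [h2, sum_range_succ (fun j => ∑ i ∈ range (j + 1), σ ^ (j - i) * D i),
        sum_range_succ D, ← ih, sum_range_succ (fun i => σ ^ (n - i) * D i), Nat.sub_self]
      ring
  have h2 : 0 ≤ ∑ i ∈ range n, σ ^ (n - i) * D i :=
    sum_nonneg fun i _ => mul_nonneg (pow_nonneg h0 _) (hD i)
  have h3 := key n
  rw [one_div, ← div_eq_inv_mul, le_div_iff₀ (by linarith)]
  linarith

lemma integral_Phi_le {B : ℕ} (hB : ∀ k, m k ≤ B) (hf : Martingale f (filt m) (mu m))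
    (hp : 0 < p) (n : ℕ) :
    ∫ x, Phi f B p n x ∂(mu m) ≤
      (1 + 2 * (cst B p + cst B p * (1 / (1 - (3 / 4) ^ (p / 2))))) *
        ∫ x, hh f p n x ∂(mu m) := by
  have hi : ∀ n, Integrable (hh f p n) (mu m) := fun n =>
    integrable_of_dependsOn (dependsOn_hh hf n)
  have hT : ∀ j, Integrable (TT f B p j) (mu m) := fun j =>
    integrable_of_dependsOn (dependsOn_TT hf B j)
  have hS : Integrable (fun x => ∑ j ∈ range n, TT f B p j x) (mu m) :=
    integrable_finsetSum _ fun j _ => hT j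
  have h1 : ∫ x, Phi f B p n x ∂(mu m) = ∫ x, hh f p n x ∂(mu m) +
      2 * (cst B p * ∫ x, hh f p n x ∂(mu m) + ∑ j ∈ range n, ∫ x, TT f B p j x ∂(mu m)) := by
    have hA : Integrable (fun x => cst B p * hh f p n x + ∑ j ∈ range n, TT f B p j x) (mu m) :=
      ((hi n).const_mul _).add hS
    unfold Phi
    rw [integral_add (hi n) (hA.const_mul _), integral_const_mul,
      integral_add ((hi n).const_mul _) hS, integral_const_mul,
      integral_finsetSum _ fun j _ => hT j]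
  have h2 : ∑ i ∈ range n, ∫ x, dl f p i x ∂(mu m) ≤ ∫ x, hh f p n x ∂(mu m) := by
    have h3 : ∀ i, ∫ x, dl f p i x ∂(mu m) =
        ∫ x, hh f p (i + 1) x ∂(mu m) - ∫ x, hh f p i x ∂(mu m) := fun i =>
      integral_sub (hi _) (hi _)
    simp only [h3]
    rw [sum_range_sub (fun i => ∫ x, hh f p i x ∂(mu m))]
    have h4 : 0 ≤ ∫ x, hh f p 0 x ∂(mu m) := integral_nonneg fun x => hh_nonneg 0 x
    linarith
  have h3 := double_sum_le sig_nonneg (sig_lt_one hp) (fun i => ∫ x, dl f p i x ∂(mu m))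
    (fun i => integral_nonneg fun x => dl_nonneg hp.le i x) n
  have h4 : (0 : ℝ) ≤ 1 / (1 - (3 / 4) ^ (p / 2)) := by
    have := sig_lt_one hp
    apply div_nonneg <;> linarith
  have h5 := h3.trans (mul_le_mul_of_nonneg_left h2 h4)
  have h6 : ∑ j ∈ range n, ∫ x, TT f B p j x ∂(mu m) ≤ cst B p *
      (1 / (1 - (3 / 4) ^ (p / 2)) * ∫ x, hh f p n x ∂(mu m)) := by
    refine (sum_le_sum fun j _ => integral_TT_le hB hf hp j).trans ?_
    rw [← mul_sum]
    exact mul_le_mul_of_nonneg_left h5 (cst_nonneg B)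
  rw [h1]
  linarith

theorem maximal {B : ℕ} (hm : ∀ k, 2 ≤ m k) (hB : ∀ k, m k ≤ B)
    (hf : Martingale f (filt m) (mu m)) (hp0 : 0 < p) (hp1 : p ≤ 1) :
    ∫⁻ x, (⨆ n, ‖R m f (M m n) x‖ₑ) ^ p ∂(mu m) ≤
      ENNReal.ofReal (1 + 2 * (cst B p + cst B p * (1 / (1 - (3 / 4) ^ (p / 2))))) *
        ∫⁻ x, (⨆ n, ‖f n x‖ₑ) ^ p ∂(mu m) := by
  have hC : (0 : ℝ) ≤ 1 + 2 * (cst B p + cst B p * (1 / (1 - (3 / 4) ^ (p / 2)))) := by
    have h1 := sig_lt_one hp0
    have h2 : (0 : ℝ) ≤ 1 / (1 - (3 / 4) ^ (p / 2)) := by apply div_nonneg <;> linarith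
    have h3 := cst_nonneg (p := p) B
    positivity
  have h1 : ∀ x, (⨆ n, ‖R m f (M m n) x‖ₑ) ^ p ≤ ⨆ n, ENNReal.ofReal (Phi f B p n x) := by
    intro x
    have h2 := (ENNReal.orderIsoRpow p hp0).map_iSup fun n => ‖R m f (M m n) x‖ₑ
    simp only [ENNReal.orderIsoRpow_apply] at h2
    rw [h2]
    refine iSup_mono fun n => ?_
    rw [← ofReal_norm, ENNReal.ofReal_rpow_of_nonneg (norm_nonneg _) hp0.le]
    exact ENNReal.ofReal_le_ofReal (norm_R_rpow_le hm hB hf hp0 hp1 n x)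
  refine (lintegral_mono h1).trans ?_
  rw [lintegral_iSup]
  · refine iSup_le fun n => ?_
    rw [← ofReal_integral_eq_lintegral_ofReal (integrable_of_dependsOn (dependsOn_Phi hf B n))
      (Eventually.of_forall fun x => Phi_nonneg hp0 B n x)]
    refine (ENNReal.ofReal_le_ofReal (integral_Phi_le hB hf hp0 n)).trans ?_
    rw [ENNReal.ofReal_mul hC, ofReal_integral_eq_lintegral_ofReal
      (integrable_of_dependsOn (dependsOn_hh hf n)) (Eventually.of_forall fun x => hh_nonneg n x)]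
    refine mul_le_mul_right (lintegral_mono fun x => ?_) _
    rw [hh, ← ENNReal.ofReal_rpow_of_nonneg (F_nonneg n x) hp0.le]
    exact ENNReal.rpow_le_rpow (F_le n x) hp0.le
  · exact fun n => ((stronglyMeasurable_of_dependsOn (dependsOn_Phi hf B n)).mono
      ((filt m).le n)).measurable.ennreal_ofReal
  · exact fun a b hab x => ENNReal.ofReal_le_ofReal (Phi_mono hp0 B x hab)

end Pool.Agent.P.MP_c47ae4_an
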